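import Pool.Agent.H30.LFN.Defs
import Pool.Agent.H28.LF.Main

/-!
Existence and uniqueness of the Lipschitz-free space in the sense of `IsFree`, and the theorem.
-/

open Pool.Agent.H28.LF

namespace LFN

section

variable {M X : Type} [MetricSpace M] [NormedAddCommGroup X] [NormedSpace ℝ X]

/-- The values of `a` on the `1`-Lipschitz functions vanishing at `o`. -/
def vals (o : M) (a : M →₀ ℝ) : Set ℝ :=
  {t | ∃ f : M → ℝ, LipschitzWith 1 f ∧ f o = 0 ∧ t = Finsupp.linearCombination ℝ f a}

theorem isFree_iff (o : M) (δ : M → X) : IsFree o δ ↔ CompleteSpace X ∧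
    DenseRange (Finsupp.linearCombination ℝ δ) ∧
    ∀ a : M →₀ ℝ, IsLUB (vals o a) ‖Finsupp.linearCombination ℝ δ a‖ := by
  have e1 : Dense (Submodule.span ℝ (Set.range δ) : Set X) ↔
      DenseRange (Finsupp.linearCombination ℝ δ) := by
    rw [← Finsupp.range_linearCombination, LinearMap.coe_range]
    rfl
  have e2 : ∀ a : M →₀ ℝ, ({t | ∃ f : M → ℝ, LipschitzWith 1 f ∧ f o = 0 ∧
      t = ∑ x ∈ a.support, a x * f x} : Set ℝ) = vals o a := by
    intro a
    ext t
    simp only [vals, Set.mem_ofPred_eq, Finsupp.linearCombination_apply, Finsupp.sum, smul_eq_mul]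
  have e3 : ∀ a : M →₀ ℝ, ∑ x ∈ a.support, a x • δ x = Finsupp.linearCombination ℝ δ a := by
    intro a
    rw [Finsupp.linearCombination_apply, Finsupp.sum]
  unfold IsFree
  rw [e1]
  simp only [e2, e3]

end

section

variable {M : Type} [MetricSpace M]

theorem incl_lc (o : M) (a : M →₀ ℝ) (F : Lip0 M o) :
    LipFree.incl (Finsupp.linearCombination ℝ (LipFree.dirac o) a) F =
      Finsupp.linearCombination ℝ (fun x => F x) a := by
  induction a using Finsupp.induction_linear with
  | zero => simp
  | add a b ha hb => rw [map_add, map_add, map_add, ← ha, ← hb]; rfl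
  | single x c =>
    rw [Finsupp.linearCombination_single, Finsupp.linearCombination_single, map_smul,
      LipFree.incl_dirac]
    rfl

theorem isFree_dirac (o : M) : IsFree o (LipFree.dirac o) := by
  rw [isFree_iff]
  refine ⟨inferInstance, ?_, ?_⟩
  · rw [DenseRange, Metric.dense_iff]
    intro m r hr
    have h1 : LipFree.incl m ∈ closure
        (Submodule.span ℝ (Set.range (delta o)) : Set (Lip0 M o →L[ℝ] ℝ)) :=
      LipFree.incl_mem m
    obtain ⟨z, hz, hd⟩ := Metric.mem_closure_iff.mp h1 r hr
    rw [SetLike.mem_coe, ← Finsupp.range_linearCombination] at hz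
    obtain ⟨a, rfl⟩ := hz
    refine ⟨Finsupp.linearCombination ℝ (LipFree.dirac o) a, ?_, a, rfl⟩
    have e : LipFree.incl (Finsupp.linearCombination ℝ (LipFree.dirac o) a) =
        Finsupp.linearCombination ℝ (delta o) a := by
      clear hd
      induction a using Finsupp.induction_linear with
      | zero => simp
      | add a b ha hb => rw [map_add, map_add, map_add, ha, hb]
      | single x c =>
        rw [Finsupp.linearCombination_single, Finsupp.linearCombination_single, map_smul,
          LipFree.incl_dirac]
    rw [Metric.mem_ball, dist_comm, dist_eq_norm, ← LipFree.norm_incl, map_sub, e,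
      ← dist_eq_norm]
    exact hd
  · intro a
    constructor
    · rintro t ⟨f, hf, ho, rfl⟩
      have hf' : ∀ x y, |f x - f y| ≤ 1 * dist x y := by
        intro x y
        have := hf.dist_le_mul x y
        simpa [Real.dist_eq] using this
      let F : Lip0 M o := ⟨f, ⟨1, hf'⟩, ho⟩
      have hF : ‖F‖ ≤ 1 := Lip0.norm_le_of F zero_le_one hf'
      have h1 := incl_lc o a F
      have h2 := (LipFree.incl (Finsupp.linearCombination ℝ (LipFree.dirac o) a)).le_opNorm F
      rw [h1, LipFree.norm_incl, Real.norm_eq_abs] at h2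
      calc Finsupp.linearCombination ℝ f a ≤ |Finsupp.linearCombination ℝ f a| := le_abs_self _
        _ ≤ ‖Finsupp.linearCombination ℝ (LipFree.dirac o) a‖ * ‖F‖ := h2
        _ ≤ ‖Finsupp.linearCombination ℝ (LipFree.dirac o) a‖ * 1 := by gcongr
        _ = _ := mul_one _
    · intro B hB
      have hB0 : 0 ≤ B := by
        refine hB ⟨fun _ => 0, LipschitzWith.const 0 |>.weaken (by simp), rfl, ?_⟩
        simp [Finsupp.linearCombination_apply]
      rw [← LipFree.norm_incl]
      refine ContinuousLinearMap.opNorm_le_bound _ hB0 fun F => ?_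
      rw [incl_lc, Real.norm_eq_abs]
      rcases (norm_nonneg F).eq_or_lt with h0 | h0
      · have hF : F = 0 := norm_eq_zero.mp h0.symm
        subst hF
        simp [Finsupp.linearCombination_apply]
      · have key : ∀ s : ℝ, |s| = 1 → s * Finsupp.linearCombination ℝ (fun x => F x) a ≤ B * ‖F‖ := by
          intro s hs
          have h1 : s / ‖F‖ * Finsupp.linearCombination ℝ (fun x => F x) a ≤ B := by
            apply hB
            refine ⟨fun x => s / ‖F‖ * F x, ?_, ?_, ?_⟩
            · apply LipschitzWith.of_dist_le_mul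
              intro x y
              rw [Real.dist_eq, ← mul_sub, abs_mul, abs_div, hs, abs_of_pos h0]
              have := F.abs_sub_le x y
              rw [NNReal.coe_one, one_mul, div_mul_eq_mul_div, one_mul, div_le_iff₀ h0, mul_comm]
              exact this
            · have h3 : F o = 0 := F.base
              exact (congrArg (fun t => s / ‖F‖ * t) h3).trans (mul_zero _)
            · rw [Finsupp.linearCombination_apply, Finsupp.linearCombination_apply, Finsupp.sum,
                Finsupp.sum, Finset.mul_sum]
              refine Finset.sum_congr rfl fun x _ => ?_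
              simp only [smul_eq_mul]
              ring
          rw [div_mul_eq_mul_div, div_le_iff₀ h0] at h1
          exact h1
        rw [abs_le]
        constructor
        · have := key (-1) (by simp)
          linarith
        · have := key 1 (by simp)
          linarith

end

section

variable {M X Y : Type} [MetricSpace M] [NormedAddCommGroup X] [NormedSpace ℝ X]
  [NormedAddCommGroup Y] [NormedSpace ℝ Y]

/-- Two free spaces over `(M, o)` are isomorphic. -/
theorem unique {o : M} {δ : M → X} {ε : M → Y} (h1 : IsFree o δ) (h2 : IsFree o ε) :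
    Nonempty (X ≃L[ℝ] Y) := by
  rw [isFree_iff] at h1 h2
  obtain ⟨c1, d1, n1⟩ := h1
  obtain ⟨c2, d2, n2⟩ := h2
  have h : ∀ a, ‖Finsupp.linearCombination ℝ δ a‖ = ‖Finsupp.linearCombination ℝ ε a‖ :=
    fun a => (n1 a).unique (n2 a)
  exact ⟨(LinearEquiv.refl ℝ (M →₀ ℝ)).extend (Finsupp.linearCombination ℝ δ)
    (Finsupp.linearCombination ℝ ε) d1 ⟨1, fun a => by rw [one_mul, h a]; rfl⟩ d2
    ⟨1, fun a => by rw [one_mul, ← h a]; rfl⟩⟩

/-- Change of the base point. -/
theorem base {o : M} {δ : M → X} (h : IsFree o δ) (p : M) : IsFree p fun x => δ x - δ p := by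
  classical
  rw [isFree_iff] at h ⊢
  obtain ⟨c, d, n⟩ := h
  have e0 : δ o = 0 := by
    have h1 := n (Finsupp.single o 1)
    rw [Finsupp.linearCombination_single, one_smul] at h1
    have h2 : ‖δ o‖ ≤ 0 := by
      refine h1.2 ?_
      rintro t ⟨f, hf, ho, rfl⟩
      rw [Finsupp.linearCombination_single, ho, smul_zero]
    exact norm_le_zero_iff.mp h2
  -- the linear map `a ↦ a - (∑ a) e_p`
  let s : (M →₀ ℝ) →ₗ[ℝ] ℝ := Finsupp.linearCombination ℝ fun _ => (1 : ℝ)
  have e1 : ∀ a, Finsupp.linearCombination ℝ (fun x => δ x - δ p) a =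
      Finsupp.linearCombination ℝ δ (a - s a • Finsupp.single p 1) := by
    intro a
    induction a using Finsupp.induction_linear with
    | zero => simp
    | add a b ha hb => rw [map_add, ha, hb, map_add, ← map_add]; congr 1; module
    | single x t => simp [s, Finsupp.linearCombination_single, smul_sub]
  refine ⟨c, ?_, fun a => ?_⟩
  · have h2 : Set.range (Finsupp.linearCombination ℝ δ) ⊆
        Set.range (Finsupp.linearCombination ℝ fun x => δ x - δ p) := by
      rintro _ ⟨a, rfl⟩
      refine ⟨a - s a • Finsupp.single o 1, ?_⟩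
      rw [e1]
      have h3 : s (a - s a • Finsupp.single o 1) = 0 := by
        simp [s, Finsupp.linearCombination_single]
      rw [h3, zero_smul, sub_zero, map_sub, map_smul, Finsupp.linearCombination_single, e0]
      simp
    exact Dense.mono h2 d
  · rw [e1]
    have h4 : vals p a = vals o (a - s a • Finsupp.single p 1) := by
      have e2 : ∀ f : M → ℝ, Finsupp.linearCombination ℝ f (a - s a • Finsupp.single p 1) =
          Finsupp.linearCombination ℝ (fun x => f x - f p) a := by
        intro f
        rw [map_sub, map_smul, Finsupp.linearCombination_single]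
        simp only [s, Finsupp.linearCombination_apply, Finsupp.sum, smul_eq_mul, mul_one, one_mul]
        rw [Finset.sum_mul, ← Finset.sum_sub_distrib]
        exact Finset.sum_congr rfl fun x _ => by ring
      ext t
      constructor
      · rintro ⟨f, hf, h0, rfl⟩
        refine ⟨fun x => f x - f o, ?_, sub_self _, ?_⟩
        · apply LipschitzWith.of_dist_le_mul
          intro x y
          rw [Real.dist_eq, sub_sub_sub_cancel_right, ← Real.dist_eq]
          exact hf.dist_le_mul x y
        · rw [e2]
          congr 1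
          congr 1
          funext x
          rw [sub_sub_sub_cancel_right, h0, sub_zero]
      · rintro ⟨f, hf, h0, rfl⟩
        refine ⟨fun x => f x - f p, ?_, sub_self _, e2 f⟩
        apply LipschitzWith.of_dist_le_mul
        intro x y
        rw [Real.dist_eq, sub_sub_sub_cancel_right, ← Real.dist_eq]
        exact hf.dist_le_mul x y
    rw [h4]
    exact n _

end

/-- The main theorem. -/
theorem main (o : LFN.RZ) (p : LFN.Plane) : HasFree o ∧ HasFree p ∧
    ∀ (X Y : Type) [NormedAddCommGroup X] [NormedSpace ℝ X] [NormedAddCommGroup Y]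
      [NormedSpace ℝ Y] (δ : LFN.RZ → X) (ε : LFN.Plane → Y), IsFree o δ → IsFree p ε →
      ¬ Isomorphic X Y := by
  refine ⟨⟨_, _, _, _, isFree_dirac o⟩, ⟨_, _, _, _, isFree_dirac p⟩, ?_⟩
  intro X Y _ _ _ _ δ ε h1 h2
  rintro ⟨T, hT⟩
  have k1 := base h1 (originRZ : LFN.RZ)
  have k2 := base h2 (0 : LFN.Plane)
  obtain ⟨A⟩ : Nonempty (LipFree Pool.Agent.H28.LF.RZ originRZ ≃L[ℝ] X) :=
    unique (isFree_dirac (M := LFN.RZ) originRZ) k1
  obtain ⟨B⟩ : Nonempty (Y ≃L[ℝ] LipFree Pool.Agent.H28.LF.Plane 0) :=
    unique k2 (isFree_dirac (M := LFN.Plane) 0)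
  refine Pool.Agent.H28.LF.no_bijection
    ((B : Y →L[ℝ] LipFree Pool.Agent.H28.LF.Plane 0).comp
      (T.comp (A : LipFree Pool.Agent.H28.LF.RZ originRZ →L[ℝ] X))) ?_
  exact B.bijective.comp (hT.comp A.bijective)

end LFN
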