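import Mathlib

/-!
Lipschitz-free spaces, described by the norm of the finite combinations of point evaluations.
-/

namespace LFN

/-- `X`, with `δ : M → X`, is the Lipschitz-free space over the metric space `M` with base point `o`:
`X` is a Banach space, the span of the `δ x` is dense in `X`, and the norm of a finite combination
`∑ a x • δ x` is the supremum of `∑ a x * f x` over all `1`-Lipschitz functions `f` with `f o = 0`. -/
def IsFree {M X : Type} [MetricSpace M] [NormedAddCommGroup X] [NormedSpace ℝ X] (o : M)
    (δ : M → X) : Prop :=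
  CompleteSpace X ∧ Dense (Submodule.span ℝ (Set.range δ) : Set X) ∧
    ∀ a : M →₀ ℝ, IsLUB {t | ∃ f : M → ℝ, LipschitzWith 1 f ∧ f o = 0 ∧ t = ∑ x ∈ a.support, a x * f x}
      ‖∑ x ∈ a.support, a x • δ x‖

/-- The Lipschitz-free space over `(M, o)` exists. -/
def HasFree {M : Type} [MetricSpace M] (o : M) : Prop :=
  ∃ (X : Type) (_ : NormedAddCommGroup X) (_ : NormedSpace ℝ X) (δ : M → X), IsFree o δ

/-- `X` and `Y` are isomorphic: there is a bounded linear bijection from `X` to `Y`. -/
def Isomorphic (X Y : Type) [NormedAddCommGroup X] [NormedSpace ℝ X] [NormedAddCommGroup Y]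
    [NormedSpace ℝ Y] : Prop :=
  ∃ T : X →L[ℝ] Y, Function.Bijective T

/-- The Euclidean plane. -/
abbrev Plane : Type := EuclideanSpace ℝ (Fin 2)

/-- `ℝ × ℤ`, the set of points of the plane whose second coordinate is an integer. -/
def RZ : Set Plane := {p | ∃ n : ℤ, p 1 = n}

end LFN
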